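import Pool.Agent.Helper28.TK.StV
import Pool.Agent.Helper1.THV.RgU2

/-!
# Project TK, low levels, MODULE MS: bihomogeneity along the extended group
-/

set_option autoImplicit false

namespace Pool.Agent.Helper43.TKV

open Pool.Agent.Helper28.TH (OkH ALPlus)
open Pool.Agent.Helper28.TK Pool.Agent.Helper28.WK Pool.Agent.Helper28.LV
open Pool.Agent.Helper14.CV
open Pool.Agent.Helper1.THV (rgUq)

variable {p : ℕ} [Fact p.Prime]

/-- The set `E` of the docstring of `ZMS`. -/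
private def EE (a : ℕ) (H : ℤ → ℤ → ℤ_[p])
    (F : ℤ → ℤ → ℤ → ℤ → ℚ_[p] → ℚ_[p] → ℚ_[p] → ℚ_[p] → ℚ_[p]) (α β γ δ : ℤ) : Prop :=
  ∀ v1 v2 w1 w2 : ℤ, (v1 ≠ 0 ∨ v2 ≠ 0) → (w1 ≠ 0 ∨ w2 ≠ 0) →
    (((α * δ - β * γ : ℤ) : ℚ_[p]) ^ a) *
      ((H (α * w1 + β * w2) (γ * w1 + δ * w2) - H (α * v1 + β * v2) (γ * v1 + δ * v2) : ℤ_[p]) :
      ℚ_[p]) = F v1 v2 w1 w2 α β γ δ ∧
    ∀ x y z t : ℚ_[p],
      F v1 v2 w1 w2 (x * α + y * γ) (x * β + y * δ) (z * α + t * γ) (z * β + t * δ) =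
        (((α * δ - β * γ : ℤ) : ℚ_[p]) ^ a) *
          F (α * v1 + β * v2) (γ * v1 + δ * v2) (α * w1 + β * w2) (γ * w1 + δ * w2) x y z t

private lemma EE.mul {a : ℕ} {H : ℤ → ℤ → ℤ_[p]}
    {F : ℤ → ℤ → ℤ → ℤ → ℚ_[p] → ℚ_[p] → ℚ_[p] → ℚ_[p] → ℚ_[p]}
    {α β γ δ α' β' γ' δ' : ℤ} (h : EE a H F α β γ δ) (h' : EE a H F α' β' γ' δ')
    (hne : α' * δ' - β' * γ' ≠ 0) :
    EE a H F (α * α' + β * γ') (α * β' + β * δ') (γ * α' + δ * γ') (γ * β' + δ * δ') := by
  intro v1 v2 w1 w2 hv hw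
  obtain ⟨h1, h2⟩ := h _ _ _ _ (ne_zero_of_det hne hv) (ne_zero_of_det hne hw)
  obtain ⟨h3, h4⟩ := h' v1 v2 w1 w2 hv hw
  have e (a b x y : ℤ) : (a * α' + b * γ') * x + (a * β' + b * δ') * y =
      a * (α' * x + β' * y) + b * (γ' * x + δ' * y) := by ring
  have em : (((α * α' + β * γ') * (γ * β' + δ * δ') - (α * β' + β * δ') * (γ * α' + δ * γ') : ℤ) :
      ℚ_[p]) ^ a = ((α' * δ' - β' * γ' : ℤ) : ℚ_[p]) ^ a * ((α * δ - β * γ : ℤ) : ℚ_[p]) ^ a := by
    rw [← mul_pow, ← Int.cast_mul]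
    congr 2
    ring
  refine ⟨?_, ?_⟩
  · rw [e α β w1 w2, e γ δ w1 w2, e α β v1 v2, e γ δ v1 v2, em, mul_assoc, h1, ← h4]
    push_cast
    rfl
  · intro x y z t
    rw [e α β w1 w2, e γ δ w1 w2, e α β v1 v2, e γ δ v1 v2, em, mul_assoc, ← h2, ← h4]
    congr 1 <;> push_cast <;> ring

private lemma HTy.left {x y z t α β γ δ : ℤ} (hd : x * t - y * z = 1) (hz : (3 : ℤ) ∣ z)
    (h : HTy α β γ δ) : HTy (x * α + y * γ) (x * β + y * δ) (z * α + t * γ) (z * β + t * δ) := by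
  have e : (x * α + y * γ) * (z * β + t * δ) - (x * β + y * δ) * (z * α + t * γ) =
      (x * t - y * z) * (α * δ - β * γ) := by ring
  rcases h with ⟨h1, h2⟩ | ⟨h1, h2, h3, h4⟩
  · exact Or.inl ⟨by rw [e, hd, h1, one_mul], dvd_add (hz.mul_right _) (h2.mul_left _)⟩
  · exact Or.inr ⟨by rw [e, hd, h1, one_mul], dvd_add (h2.mul_left _) (h3.mul_left _),
      dvd_add (hz.mul_right _) (h3.mul_left _), dvd_add (hz.mul_right _) (h4.mul_left _)⟩

private lemma balrem (a m : ℤ) (hm : m ≠ 0) : ∃ q r : ℤ, a = m * q + r ∧ 2 * |r| ≤ |m| := by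
  have h0 : a % m + m * (a / m) = a := Int.emod_add_mul_ediv a m
  have h1 : 0 ≤ a % m := Int.emod_nonneg a hm
  have h2 : a % m < |m| := Int.emod_lt_abs a hm
  by_cases h3 : 2 * (a % m) ≤ |m|
  · exact ⟨a / m, a % m, by linarith, by rw [abs_of_nonneg h1]; exact h3⟩
  · push Not at h3
    rcases lt_or_gt_of_ne hm with h | h
    · refine ⟨a / m - 1, a % m + m, by linear_combination -h0, ?_⟩
      rw [abs_of_neg h] at h2 h3 ⊢
      rw [abs_of_nonpos (by linarith)]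
      linarith
    · refine ⟨a / m + 1, a % m - m, by linear_combination -h0, ?_⟩
      rw [abs_of_pos h] at h2 h3 ⊢
      rw [abs_of_nonpos (by linarith)]
      linarith

theorem hMS : ZMS := by
  intro hMC hPl hT _ p hp a H hp2 hHom hSym hNb hNc
  have hp2' : ¬ (3 : ℤ) ∣ (p : ℤ) := by
    intro h
    have h1 : 3 ∣ p := by exact_mod_cast h
    exact hp2 ((Nat.prime_dvd_prime_iff_eq Nat.prime_three hp.out).1 h1).symm
  have hex : ∀ v1 v2 w1 w2 : ℤ, (v1 ≠ 0 ∨ v2 ≠ 0) → (w1 ≠ 0 ∨ w2 ≠ 0) →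
      ∃ F : ℚ_[p] → ℚ_[p] → ℚ_[p] → ℚ_[p] → ℚ_[p], Rg a F ∧ ∀ α β γ δ : ℤ,
      HTy α β γ δ → (p : ℤ) ^ 1 ∣ γ →
      (((α * δ - β * γ : ℤ) : ℚ_[p]) ^ a) *
      ((H (α * w1 + β * w2) (γ * w1 + δ * w2) - H (α * v1 + β * v2) (γ * v1 + δ * v2) : ℤ_[p]) :
        ℚ_[p]) = F α β γ δ := fun v1 v2 w1 w2 hv hw => by
    obtain ⟨F, h1, h2⟩ := hMC p hp a 1 H hp2 le_rfl hHom hSym hNb
      (fun c hc => hNc c ((dvd_mul_right _ _).trans hc)) v1 v2 w1 w2 hv hw
    refine ⟨F, h1, fun α β γ δ hd hγ => ?_⟩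
    rw [← h2 α β γ δ hd hγ, PadicInt.coe_mul, PadicInt.coe_intCast, Int.cast_pow]
  choose! F hF using hex
  -- (1) the matrices with `p ∣ γ`
  have hG0 : ∀ α β γ δ : ℤ, HTy α β γ δ → (p : ℤ) ^ 1 ∣ γ → EE a H F α β γ δ := by
    intro α β γ δ hty hγ v1 v2 w1 w2 hv hw
    have hne : α * δ - β * γ ≠ 0 := hty.det_ne
    have hv' := ne_zero_of_det hne hv
    have hw' := ne_zero_of_det hne hw
    refine ⟨(hF v1 v2 w1 w2 hv hw).2 α β γ δ hty hγ, ?_⟩
    have r1 := (hF _ _ _ _ hv' hw').1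
    have r2 := (hT p hp a _ (hF v1 v2 w1 w2 hv hw).1).1 (α : ℚ_[p]) β γ δ
    have r3 := (hT p hp a _ r2).2.2.2.1 _ 1 (-(((α * δ - β * γ : ℤ) : ℚ_[p]) ^ a)) r1
    have r4 := rgUq p hp a 1 3 three_ne_zero _ r3 ?_
    · intro x y z t
      have := r4 x y z t
      linear_combination this
    · intro x y z t hd _ _ hz _ _ _ hz2 _
      have s1 := (hF _ _ _ _ hv' hw').2 x y z t (Or.inl ⟨hd, hz2⟩) hz
      have s2 := (hF v1 v2 w1 w2 hv hw).2 (x * α + y * γ) (x * β + y * δ) (z * α + t * γ)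
        (z * β + t * δ) (HTy.left hd hz2 hty) (dvd_add (hz.mul_right _) (hγ.mul_left _))
      have e (a b x y : ℤ) : (a * α + b * γ) * x + (a * β + b * δ) * y =
        a * (α * x + β * y) + b * (γ * x + δ * y) := by ring
      have ed : (x * α + y * γ) * (z * β + t * δ) - (x * β + y * δ) * (z * α + t * γ) =
          α * δ - β * γ := by
        linear_combination (α * δ - β * γ) * hd
      rw [e x y w1 w2, e z t w1 w2, e x y v1 v2, e z t v1 v2, ed] at s2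
      rw [hd, Int.cast_one, one_pow, one_mul] at s1
      rw [← s1]
      push_cast at s2 ⊢
      rw [← s2]
      ring
  -- (2) the value at the lower unipotent matrices
  have hstar0 : ∀ c v1 v2 w1 w2 : ℤ, (v1 ≠ 0 ∨ v2 ≠ 0) → (w1 ≠ 0 ∨ w2 ≠ 0) →
      ((H (1 * w1 + 0 * w2) (3 * c * w1 + 1 * w2) - H (1 * v1 + 0 * v2) (3 * c * v1 + 1 * v2) :
        ℤ_[p]) : ℚ_[p]) = F v1 v2 w1 w2 1 0 (3 * (c : ℚ_[p])) 1 := by
    intro c v1 v2 w1 w2 hv hw
    obtain ⟨hR, hval⟩ := hF v1 v2 w1 w2 hv hw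
    obtain ⟨Q, hQ⟩ := hR
    obtain ⟨k, hk⟩ := hNc 3 (dvd_refl _)
    have hP : Plf a (fun c : ℤ => H (1 * w1 + 0 * w2) (3 * c * w1 + 1 * w2) -
        H (1 * v1 + 0 * v2) (3 * c * v1 + 1 * v2)) := by
      intro b
      have nz {x y : ℤ} (h : x ≠ 0 ∨ y ≠ 0) : (x ≠ 0 ∨ 3 * b * x + y ≠ 0) := by
        by_cases hx : x = 0
        · right
          rcases h with h | h
          · exact absurd hx h
          · rw [hx, mul_zero, zero_add]
            exact h
        · exact Or.inl hx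
      have k1 := hk w1 (3 * b * w1 + w2) (nz hw)
      have k2 := hk v1 (3 * b * v1 + v2) (nz hv)
      simp only [Nc, Pi.zero_apply, zero_add] at k1 k2
      simp only [smul_sub]
      rw [Finset.sum_sub_distrib, sub_eq_zero]
      have e (x y : ℤ) (j : ℕ) : H (1 * x + 0 * y) (3 * (b + (j : ℤ)) * x + 1 * y) =
          H x ((j : ℤ) * 3 * x + (3 * b * x + y)) := by
        congr 1 <;> ring
      simp only [e]
      rw [k1, k2]
    obtain ⟨f, _, hf⟩ := hPl p hp a _ hP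
    obtain ⟨g, hg⟩ : ∃ g : Polynomial ℚ_[p], g = ∑ i ∈ Finset.range (a + 1),
        ∑ j ∈ Finset.range (a + 1), Polynomial.C (Q i j * ((1 : ℚ_[p]) ^ (a - i) * 0 ^ i)) *
          (Polynomial.C 3 * Polynomial.X) ^ j := ⟨_, rfl⟩
    have hge : ∀ x : ℚ_[p], g.eval x = F v1 v2 w1 w2 1 0 (3 * x) 1 := by
      intro x
      rw [hg, hQ, Polynomial.eval_finsetSum]
      refine Finset.sum_congr rfl fun i _ => ?_
      rw [Polynomial.eval_finsetSum]
      refine Finset.sum_congr rfl fun j _ => ?_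
      rw [Polynomial.eval_mul, Polynomial.eval_C, Polynomial.eval_pow, Polynomial.eval_mul,
        Polynomial.eval_C, Polynomial.eval_X, one_pow (a - j), mul_one]
      ring
    have hfg : f = g := by
      refine Polynomial.eq_of_infinite_eval_eq f g ?_
      refine Set.infinite_of_injective_forall_mem (f := fun m : ℕ => ((p : ℚ_[p]) * (m : ℚ_[p])))
        ?_ ?_
      · intro m m' h
        have hp0 : (p : ℚ_[p]) ≠ 0 := by exact_mod_cast hp.out.ne_zero
        exact_mod_cast mul_left_cancel₀ hp0 h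
      · intro m
        have h1 := hf ((p : ℤ) * m)
        have h2 := hval 1 0 (3 * ((p : ℤ) * m)) 1 (Or.inl ⟨by ring, dvd_mul_right _ _⟩)
          (by rw [pow_one]; exact Dvd.dvd.mul_left (dvd_mul_right _ _) 3)
        have e1 : ((1 : ℤ) * 1 - 0 * (3 * ((p : ℤ) * m)) : ℤ) = 1 := by ring
        rw [e1, Int.cast_one, one_pow, one_mul] at h2
        show f.eval _ = g.eval _
        rw [hge]
        push_cast at h1 h2 ⊢
        rw [← h1, ← h2]
    rw [← hge, ← hfg]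
    exact hf c
  have hstar : ∀ c v1 v2 w1 w2 : ℤ, (3 : ℤ) ∣ c → (v1 ≠ 0 ∨ v2 ≠ 0) → (w1 ≠ 0 ∨ w2 ≠ 0) →
      ((H (1 * w1 + 0 * w2) (c * w1 + 1 * w2) - H (1 * v1 + 0 * v2) (c * v1 + 1 * v2) : ℤ_[p]) :
        ℚ_[p]) = F v1 v2 w1 w2 1 0 c 1 := by
    intro c v1 v2 w1 w2 hc hv hw
    obtain ⟨m, rfl⟩ := hc
    have := hstar0 m v1 v2 w1 w2 hv hw
    push_cast at this ⊢
    exact this
  have hn2 : ∀ c : ℤ, (3 : ℤ) ∣ c → EE a H F 1 0 c 1 := by
    intro c hc v1 v2 w1 w2 hv hw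
    have e10 : (((1 : ℤ) * 1 - 0 * c : ℤ) : ℚ_[p]) ^ a = 1 := by
      rw [show ((1 : ℤ) * 1 - 0 * c : ℤ) = 1 by ring, Int.cast_one, one_pow]
    rw [e10]
    refine ⟨?_, ?_⟩
    · have := hstar c v1 v2 w1 w2 hc hv hw
      rw [one_mul]
      push_cast at this ⊢
      exact this
    have hne : (1 : ℤ) * 1 - 0 * c ≠ 0 := by norm_num
    have hv' := ne_zero_of_det hne hv
    have hw' := ne_zero_of_det hne hw
    have r1 := (hF _ _ _ _ hv' hw').1
    have r2 := (hT p hp a _ (hF v1 v2 w1 w2 hv hw).1).1 ((1 : ℤ) : ℚ_[p]) ((0 : ℤ) : ℚ_[p])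
      ((c : ℤ) : ℚ_[p]) ((1 : ℤ) : ℚ_[p])
    have r3 := (hT p hp a _ r2).2.2.2.1 _ 1 (-1) r1
    have r4 := rgUq p hp a 2 3 three_ne_zero _ r3 ?_
    · intro x y z t
      have := r4 x y z t
      linear_combination this
    · intro α β γ δ hd hα hβ hγ hδ _ _ hγ2 _
      have s1 := (hF _ _ _ _ hv' hw').2 α β γ δ (Or.inl ⟨hd, hγ2⟩)
        (dvd_trans (pow_dvd_pow (p : ℤ) (by norm_num)) hγ)
      rw [hd, Int.cast_one, one_pow, one_mul] at s1
      -- `x' = n'(-c) x n'(c)`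
      have hd' : (α + β * c) * (δ - c * β) - β * (γ - c * α + (δ - c * β) * c) = 1 := by
        linear_combination hd
      have hγ' : (p : ℤ) ^ 1 ∣ γ - c * α + (δ - c * β) * c := by
        have e : γ - c * α + (δ - c * β) * c = γ - c * (α - 1) + c * (δ - 1) - c * c * β := by ring
        rw [e]
        have hdv : (p : ℤ) ^ 1 ∣ (p : ℤ) ^ 2 := pow_dvd_pow (p : ℤ) (by norm_num)
        exact dvd_sub (dvd_add (dvd_sub (dvd_trans hdv hγ) ((dvd_trans hdv hα).mul_left _))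
          ((dvd_trans hdv hδ).mul_left _)) ((dvd_trans hdv hβ).mul_left _)
      have hγ2' : (3 : ℤ) ∣ γ - c * α + (δ - c * β) * c :=
        dvd_add (dvd_sub hγ2 (hc.mul_right _)) (hc.mul_left _)
      have hx' := hG0 _ _ _ _ (Or.inl ⟨hd', hγ2'⟩) hγ' v1 v2 w1 w2 hv hw
      have s2 := hx'.2 1 0 c 1
      rw [hd', Int.cast_one, one_pow] at s2
      replace s2 := s2.trans (one_mul _)
      have hne' : (α + β * c) * (δ - c * β) - β * (γ - c * α + (δ - c * β) * c) ≠ 0 := by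
        rw [hd']; exact one_ne_zero
      have s3 := hstar c _ _ _ _ hc (ne_zero_of_det hne' hv) (ne_zero_of_det hne' hw)
      rw [← s2] at s3
      rw [← s1]
      have e1 : ∀ x y : ℤ, 1 * ((α + β * c) * x + β * y) +
          0 * ((γ - c * α + (δ - c * β) * c) * x + (δ - c * β) * y) =
          α * (1 * x + 0 * y) + β * (c * x + 1 * y) := by intro x y; ring
      have e2 : ∀ x y : ℤ, c * ((α + β * c) * x + β * y) +
          1 * ((γ - c * α + (δ - c * β) * c) * x + (δ - c * β) * y) =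
          γ * (1 * x + 0 * y) + δ * (c * x + 1 * y) := by intro x y; ring
      rw [e1 w1 w2, e2 w1 w2, e1 v1 v2, e2 v1 v2] at s3
      rw [s3]
      have e3 : ∀ (x1 x2 x3 x4 y1 y2 y3 y4 : ℚ_[p]), x1 = y1 → x2 = y2 → x3 = y3 → x4 = y4 →
          1 * F v1 v2 w1 w2 x1 x2 x3 x4 + -1 * F v1 v2 w1 w2 y1 y2 y3 y4 = 0 := by
        intro x1 x2 x3 x4 y1 y2 y3 y4 h1 h2 h3 h4
        rw [h1, h2, h3, h4]
        ring
      apply e3 <;> push_cast <;> ring
  -- (3) generation of the group of determinant one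
  have hall : ∀ (N : ℕ) (α β γ δ : ℤ), γ.natAbs ≤ N → α * δ - β * γ = 1 → (3 : ℤ) ∣ γ →
      EE a H F α β γ δ := by
    intro N
    induction N with
    | zero =>
      intro α β γ δ hN hdet h2γ
      have : γ = 0 := by omega
      exact hG0 α β γ δ (Or.inl ⟨hdet, h2γ⟩) (by rw [this]; exact dvd_zero _)
    | succ N ih =>
      intro α β γ δ hN hdet h2γ
      by_cases h0 : γ = 0
      · exact hG0 α β γ δ (Or.inl ⟨hdet, h2γ⟩) (by rw [h0]; exact dvd_zero _)
      · obtain ⟨g', hg'⟩ := h2γ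
        obtain ⟨q, r, hdm, hr⟩ := balrem α γ h0
        have hr2 : r ≠ 0 := by
          rintro rfl
          have : (3 : ℤ) ∣ 1 := ⟨g' * q * δ - β * g', by rw [← hdet, hdm, hg']; ring⟩
          omega
        obtain ⟨k, s, hsk, hs⟩ := balrem γ (3 * r) (mul_ne_zero three_ne_zero hr2)
        have hγ' : γ - 3 * k * r = s := by rw [hsk]; ring
        have hlt : (γ - 3 * k * r).natAbs ≤ N := by
          rw [hγ']
          have h1 : |3 * r| = 3 * |r| := by rw [abs_mul]; rfl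
          have h4 : 0 < |γ| := abs_pos.2 h0
          have h2 : |s| < |γ| := by rw [h1] at hs; linarith
          have h3 : (s.natAbs : ℤ) < (γ.natAbs : ℤ) := by
            rw [Int.natCast_natAbs, Int.natCast_natAbs]; exact h2
          omega
        -- `g = n(q) n'(3k) (r, β - q δ; γ - 3 k r, δ - 3 k (β - q δ))`
        have hdet' : r * (δ - 3 * k * (β - q * δ)) - (β - q * δ) * (γ - 3 * k * r) = 1 := by
          linear_combination hdet - δ * hdm
        have hi := ih r (β - q * δ) (γ - 3 * k * r) (δ - 3 * k * (β - q * δ)) hlt hdet'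
          (dvd_sub ⟨g', hg'⟩ (by rw [mul_assoc]; exact dvd_mul_right _ _))
        have h1 := (hG0 1 q 0 1 (Or.inl ⟨by ring, dvd_zero _⟩) (dvd_zero _)).mul
          (hn2 (3 * k) (dvd_mul_right _ _)) (by norm_num)
        have h2 := h1.mul hi (by rw [hdet']; exact one_ne_zero)
        have e1 : (1 * 1 + q * (3 * k)) * r + (1 * 0 + q * 1) * (γ - 3 * k * r) = α := by
          linear_combination -hdm
        have e2 : (1 * 1 + q * (3 * k)) * (β - q * δ) +
            (1 * 0 + q * 1) * (δ - 3 * k * (β - q * δ)) = β := by ring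
        have e3 : (0 * 1 + 1 * (3 * k)) * r + (0 * 0 + 1 * 1) * (γ - 3 * k * r) = γ := by ring
        have e4 : (0 * 1 + 1 * (3 * k)) * (β - q * δ) +
            (0 * 0 + 1 * 1) * (δ - 3 * k * (β - q * δ)) = δ := by ring
        rw [e1, e2, e3, e4] at h2
        exact h2
  -- (4) determinant three
  have hfin : ∀ α β γ δ : ℤ, HTy α β γ δ → EE a H F α β γ δ := by
    intro α β γ δ hty
    rcases hty with ⟨hd, h2⟩ | ⟨hd, ⟨α', hα⟩, ⟨γ', hγ⟩, ⟨δ', hδ⟩⟩
    · exact hall γ.natAbs α β γ δ le_rfl hd h2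
    · obtain ⟨u, t, hu⟩ : ∃ u t : ℤ, 3 * t - (p : ℤ) * u = 1 := by
        have h3 : (p : ℤ) % 3 = 1 ∨ (p : ℤ) % 3 = 2 := by omega
        rcases h3 with h | h
        · exact ⟨-1, -((p : ℤ) / 3), by omega⟩
        · exact ⟨1, (p : ℤ) / 3 + 1, by omega⟩
      have hg0 := hG0 3 u (3 * p) (3 * t) (Or.inr ⟨by linear_combination 3 * hu, dvd_refl _,
        dvd_mul_right _ _, dvd_mul_right _ _⟩) (by rw [pow_one]; exact dvd_mul_left _ _)
      -- `g = m g₀⁻¹`
      have h3 : α' * δ - β * γ' = 1 := by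
        have : 3 * (α' * δ - β * γ') = 3 := by linear_combination hd - δ * hα + β * hγ
        omega
      have hd1 : (α' * (3 * t) - p * β) * (δ - u * γ') -
          (β - u * α') * (γ' * (3 * t) - p * δ) = 1 := by
        linear_combination (3 * t - (p : ℤ) * u) * h3 + hu
      have hi := hall _ (α' * (3 * t) - p * β) (β - u * α') (γ' * (3 * t) - p * δ) (δ - u * γ')
        le_rfl hd1 ⟨γ' * t - p * δ', by rw [hδ]; ring⟩
      have h1 := hi.mul hg0 (by
        have : (3 : ℤ) * (3 * t) - u * (3 * p) = 3 := by linear_combination 3 * hu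
        rw [this]; exact three_ne_zero)
      have e1 : (α' * (3 * t) - p * β) * 3 + (β - u * α') * (3 * p) = α := by
        rw [hα]; linear_combination 3 * α' * hu
      have e2 : (α' * (3 * t) - p * β) * u + (β - u * α') * (3 * t) = β := by
        linear_combination β * hu
      have e3 : (γ' * (3 * t) - p * δ) * 3 + (δ - u * γ') * (3 * p) = γ := by
        rw [hγ]; linear_combination 3 * γ' * hu
      have e4 : (γ' * (3 * t) - p * δ) * u + (δ - u * γ') * (3 * t) = δ := by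
        linear_combination δ * hu
      rw [e1, e2, e3, e4] at h1
      exact h1
  refine ⟨F, fun v1 v2 w1 w2 hv hw => ⟨(hF v1 v2 w1 w2 hv hw).1, fun α β γ δ hty => ?_⟩⟩
  rw [PadicInt.coe_mul, PadicInt.coe_intCast, Int.cast_pow]
  exact (hfin α β γ δ hty v1 v2 w1 w2 hv hw).1

end Pool.Agent.Helper43.TKV
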